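import Pool.Agent.H87.EBK.Stmts

/-! Row HIG of board ebk. -/

set_option autoImplicit false

namespace Pool.EBK

theorem hig (hSTA : STA) : HIG := by
  intro a b c hP hT h1 h2
  obtain ⟨h3, h4⟩ := hSTA a b c hP.1 hP.2.1 hT
  exact ⟨hP, a * b / c, h3, by omega, by omega⟩

end Pool.EBK
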